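import Mathlib

set_option autoImplicit false

namespace Pool.Agent.Results.MP_ebea7e_gt.Counter

open Set Topology Filter

def KR (X : Type) [TopologicalSpace X] : Prop :=
  ∀ f : X → ℝ, (∀ K, IsCompact K → ContinuousOn f K) → Continuous f

lemma kr_pi {J D : Type} [TopologicalSpace D] [DiscreteTopology D] : KR (J → D) := by
  classical
  refine fun f hf => continuous_iff_continuousAt.2 fun x =>
    Metric.nhds_basis_closedBall.tendsto_right_iff.2 fun ε hε => ?_
  obtain ⟨F, hF⟩ : ∃ F : Finset J, ∀ y : J → D, (∀ j ∈ F, y j = x j) → {j | y j ≠ x j}.Finite →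
      dist (f y) (f x) ≤ ε := by
    by_contra h
    push Not at h
    choose g h1 h2 h3 using h
    let F : ℕ → Finset J := fun n => n.rec ∅ fun _ F => F ∪ (h2 F).toFinset
    have h4 : Monotone F := monotone_nat_of_le_succ fun n => Finset.subset_union_left
    have h5 : Tendsto (fun n => g (F n)) atTop (𝓝 x) := tendsto_pi_nhds.2 fun j => by
      by_cases h : ∃ n, g (F n) j ≠ x j
      · obtain ⟨n, hn⟩ := h
        exact tendsto_const_nhds.congr' ((eventually_gt_atTop n).mono fun m hm =>
          (h1 _ j (h4 hm (Finset.mem_union_right _ ((h2 _).mem_toFinset.2 hn)))).symm)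
      · push Not at h
        simp [h]
    have h6 := (hf _ h5.isCompact_insert_range x (mem_insert _ _)).tendsto.comp
      (tendsto_nhdsWithin_iff.2 ⟨h5, .of_forall fun n => mem_insert_of_mem _ ⟨n, rfl⟩⟩)
    obtain ⟨n, hn⟩ := (h6.eventually (Metric.ball_mem_nhds _ hε)).exists
    exact (h3 _).not_gt hn
  filter_upwards [(eventually_all_finset F).2 fun j _ =>
    (continuous_apply j).continuousAt.eventually ((isOpen_discrete {x j}).mem_nhds rfl)] with y hy
  have h1 : Tendsto (fun S : Finset J => S.piecewise y x) atTop (𝓝 y) :=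
    tendsto_pi_nhds.2 fun j => tendsto_const_nhds.congr' ((eventually_finset_mem_atTop j).mono
      fun S hS => (S.piecewise_eq_of_mem _ _ hS).symm)
  have h2 := (hf _ (isCompact_univ_pi fun j => (toFinite {x j, y j}).isCompact) y
    (fun j _ => by simp)).tendsto.comp (tendsto_nhdsWithin_iff.2 ⟨h1, .of_forall fun S j _ => by
      by_cases h : j ∈ S <;> simp [h]⟩)
  refine le_of_tendsto' (h2.dist tendsto_const_nhds) fun S => hF _ (fun j hj => ?_)
    (S.finite_toSet.subset fun j hj => by_contra fun h => hj (S.piecewise_eq_of_notMem _ _ h))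
  by_cases h : j ∈ S <;> simp [h, show y j = x j from hy j hj]

def D : Type := ℝ → ZMod 2
instance : AddCommGroup D := inferInstanceAs (AddCommGroup (ℝ → ZMod 2))
instance : TopologicalSpace D := ⊥
instance : DiscreteTopology D := ⟨rfl⟩

abbrev J : Type := {C : Set ℝ // C.Countable}

def H : AddSubgroup (J → D) where
  carrier := {y | ∀ C i, (i ∉ C.1 → y C i = 0) ∧ (i ∈ C.1 → y C i = y ⟨{i}, by simp⟩ i)}
  zero_mem' := fun _ _ => ⟨fun _ => rfl, fun _ => rfl⟩
  add_mem' := fun {a b} ha hb C i => ⟨fun h => show a C i + b C i = 0 by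
    simp [(ha C i).1 h, (hb C i).1 h], fun h => congrArg₂ (· + ·) ((ha C i).2 h) ((hb C i).2 h)⟩
  neg_mem' := fun {a} ha C i => ⟨fun h => show -a C i = 0 by simp [(ha C i).1 h],
    fun h => congrArg (-·) ((ha C i).2 h)⟩

theorem result : ∃ (G : Type) (_ : AddCommGroup G) (_ : TopologicalSpace G)
    (_ : IsTopologicalAddGroup G) (H : AddSubgroup G),
    T2Space G ∧ KR G ∧ IsClosed (H : Set G) ∧ ¬ KR H := by
  classical
  refine ⟨J → D, inferInstance, inferInstance, inferInstance, H, inferInstance, kr_pi, ?_,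
    fun h => ?_⟩
  · have : ∀ (C : J) (i : ℝ), Continuous fun y : J → D => y C i := fun C i =>
      (continuous_of_discreteTopology (f := fun d : D => d i)).comp (continuous_apply C)
    show IsClosed {y : J → D | ∀ C i, _}
    simp only [ofPred_forall, ofPred_and]
    exact isClosed_iInter fun C => isClosed_iInter fun i => (isClosed_iInter fun _ =>
      isClosed_eq (this _ _) continuous_const).inter
        (isClosed_iInter fun _ => isClosed_eq (this _ _) (this _ _))
  have h1 := h (fun y => if y = 0 then 1 else 0) fun K hK => Finite.continuousOn ?_ _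
  · have h2 : ∀ᶠ y : H in 𝓝 0, y = 0 :=
      ((h1.tendsto 0).eventually (lt_mem_nhds (show (0 : ℝ) < _ by simp))).mono
        fun y hy => by_contra fun c => by simp [c] at hy
    obtain ⟨U, h3, h4⟩ := (mem_nhds_subtype _ _ _).1 h2
    rw [nhds_pi] at h3
    obtain ⟨I, h5, t, h6, h7⟩ := mem_pi.1 h3
    obtain ⟨i, hi⟩ := (ne_univ_iff_exists_notMem _).1 fun h : ⋃ C ∈ I, C.1 = univ =>
      Cardinal.not_countable_real (h ▸ h5.countable.biUnion fun C _ => C.2)
    let y : H := ⟨fun C k => if k = i ∧ k ∈ C.1 then 1 else 0, fun C k =>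
      ⟨fun h => by simp [h], fun h => by simp [h]⟩⟩
    have h8 : y = 0 := h4 (h7 fun C hC => by
      have : y.1 C = (0 : H).1 C := funext fun k => if_neg fun ⟨h8, h9⟩ =>
        hi (mem_biUnion hC (h8 ▸ h9))
      exact this ▸ mem_of_mem_nhds (h6 C))
    have h9 : y.1 ⟨{i}, by simp⟩ i = 0 := by rw [h8]; rfl
    simp [y] at h9
  · by_contra h1
    let e := Set.Infinite.natEmbedding K h1
    have h2 : ∀ p : ℕ × ℕ, ∃ i, p.1 ≠ p.2 →
        (e p.1).1.1 ⟨{i}, by simp⟩ i ≠ (e p.2).1.1 ⟨{i}, by simp⟩ i := fun p => by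
      by_contra h2
      push Not at h2
      refine (h2 0).1 (e.injective (Subtype.ext (Subtype.ext (funext fun C => funext fun i => ?_))))
      by_cases h : i ∈ C.1
      · rw [((e p.1).1.2 C i).2 h, ((e p.2).1.2 C i).2 h, (h2 i).2]
      · rw [((e p.1).1.2 C i).1 h, ((e p.2).1.2 C i).1 h]
    choose c hc using h2
    let C : J := ⟨range c, countable_range c⟩
    refine infinite_of_injective_forall_mem (f := fun n => (e n).1.1 C) (fun m n h => ?_)
      (fun n => mem_image_of_mem _ (e n).2)
      (hK.image ((continuous_apply C).comp continuous_subtype_val)).finite_of_discrete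
    by_contra h3
    refine hc (m, n) h3 ?_
    rw [← ((e m).1.2 C _).2 ⟨_, rfl⟩, ← ((e n).1.2 C _).2 ⟨_, rfl⟩]
    exact congrFun h _

end Pool.Agent.Results.MP_ebea7e_gt.Counter
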